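import Pool.Agent.X98.DV.Geo

set_option autoImplicit false

/-!
# MP_d88dfe_an: the Devron property of the three-dimensional pentagram map

Let `A` be a `2n`-periodic polygon in `ℝP³`, `n ≥ 4`, whose faces pass alternately through two
points.  Then the odd-indexed vertices of `F^(n-3)(A)` lie in one plane, and so do the
even-indexed ones.  No genericity is assumed beyond the iterates being defined.

Idea.  With homogeneous coordinates, the relation `L A = 0` among five consecutive vertices splits
into an odd part `L₊` and an even part `L₋`, and `F(A) = L₊ A = -L₋ A`; the operators of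
consecutive iterates satisfy `L'₊ L₋ = L'₋ L₊`.  If the faces pass alternately through `P`, `Q` then
`L = (T⁻¹ - T)(αT⁻¹ + β + γT)`, and `x_j = (β⁻¹(αT⁻¹ + γT))^j β⁻¹ 1` satisfies `L₊ x₀ = 0`,
`L₊ x_{j+1} = L₋ x_j`; so the product `N_k` of the odd parts kills `x₀, ..., x_{k-1}`, and its rank
on the `n` indices of one parity is at most `n - k`, which is `3` for `k = n - 3`.  Degenerate
polygons are treated by deforming the operator `L` (not the polygon) over `ℝ[t]`.
-/

open Module

namespace Pool.Agent.Results.MP_d88dfe_an.Devron3D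

open Pool.Agent.X98.DV

/-- The points of `ℝP³`; `X.submodule` is the line of `ℝ⁴` which represents the point `X`. -/
abbrev RP3 := Projectivization ℝ (Fin 4 → ℝ)

/-- The line through `A_{i-1}`, `A_{i+1}`, as a subspace of `ℝ⁴`. -/
noncomputable def line {N : ℕ} (A : ZMod N → RP3) (i : ZMod N) : Submodule ℝ (Fin 4 → ℝ) :=
  (A (i - 1)).submodule ⊔ (A (i + 1)).submodule

/-- The plane through `A_{i-2}`, `A_i`, `A_{i+2}`, as a subspace of `ℝ⁴`. -/
noncomputable def plane {N : ℕ} (A : ZMod N → RP3) (i : ZMod N) : Submodule ℝ (Fin 4 → ℝ) :=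
  (A (i - 2)).submodule ⊔ (A i).submodule ⊔ (A (i + 2)).submodule

/-- `F(A)` is defined and equal to `B`: for every `i`, the points determine a line and a plane, which
meet in exactly one point, and this point is `B_i`. -/
def IsImage {N : ℕ} (A B : ZMod N → RP3) : Prop :=
  ∀ i, finrank ℝ (line A i) = 2 ∧ finrank ℝ (plane A i) = 3 ∧ line A i ⊓ plane A i = (B i).submodule

/-- The face `Π_i` spanned by `A_{i-1}`, `A_i`, `A_{i+1}`, as a subspace of `ℝ⁴`. -/
noncomputable def face {N : ℕ} (A : ZMod N → RP3) (i : ZMod N) : Submodule ℝ (Fin 4 → ℝ) :=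
  (A (i - 1)).submodule ⊔ (A i).submodule ⊔ (A (i + 1)).submodule

/-- The faces of `A` pass alternately through `P` and `Q`. -/
def Alternate {N : ℕ} (A : ZMod N → RP3) (P Q : RP3) : Prop :=
  (∀ i, Even i → P.submodule ≤ face A i) ∧ (∀ i, Odd i → Q.submodule ≤ face A i)

/-- The points of `S` lie in one plane. -/
def InOnePlane (S : Set RP3) : Prop :=
  ∃ H : Submodule ℝ (Fin 4 → ℝ), finrank ℝ H = 3 ∧ ∀ X ∈ S, X.submodule ≤ H

/-! ### the geometric step -/

theorem li2 {x y : Fin 4 → ℝ} (h : finrank ℝ (Submodule.span ℝ {x} ⊔ Submodule.span ℝ {y} :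
    Submodule ℝ (Fin 4 → ℝ)) = 2) {s t : ℝ} (hst : s • x + t • y = 0) : s = 0 ∧ t = 0 := by
  have hl : LinearIndependent ℝ ![x, y] := by
    rw [linearIndependent_iff_card_eq_finrank_span, Fintype.card_fin]
    have : Set.range ![x, y] = {x} ∪ {y} := by
      ext v; simp [eq_comm]
    rw [Set.finrank, this, Submodule.span_union, h]
  exact LinearIndependent.pair_iff.1 hl s t hst

theorem li3 {x y z : Fin 4 → ℝ} (h : finrank ℝ (Submodule.span ℝ {x} ⊔ Submodule.span ℝ {y}
    ⊔ Submodule.span ℝ {z} : Submodule ℝ (Fin 4 → ℝ)) = 3) {s t u : ℝ}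
    (hst : s • x + t • y + u • z = 0) : s = 0 ∧ t = 0 ∧ u = 0 := by
  have hl : LinearIndependent ℝ ![x, y, z] := by
    rw [linearIndependent_iff_card_eq_finrank_span, Fintype.card_fin]
    have : Set.range ![x, y, z] = {x} ∪ {y} ∪ {z} := by
      ext v
      simp only [Set.mem_range, Set.mem_union, Set.mem_singleton_iff]
      constructor
      · rintro ⟨i, rfl⟩
        fin_cases i <;> simp
      · rintro ((rfl | rfl) | rfl)
        exacts [⟨0, rfl⟩, ⟨1, rfl⟩, ⟨2, rfl⟩]
    rw [Set.finrank, this, Submodule.span_union, Submodule.span_union, h]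
  have h2 := Fintype.linearIndependent_iff.1 hl ![s, t, u] (by
    rw [Fin.sum_univ_three]; exact hst)
  exact ⟨h2 0, h2 1, h2 2⟩

theorem step {N : ℕ} {A B : ZMod N → RP3} (h : IsImage A B) {a : ZMod N → Fin 4 → ℝ}
    (ha : ∀ i, (A i).submodule = Submodule.span ℝ {a i}) (i : ZMod N) {c : Fin 5 → ℝ} (hc : c ≠ 0)
    (hr : c 0 • a (i - 2) + c 1 • a (i - 1) + c 2 • a i + c 3 • a (i + 1) + c 4 • a (i + 2) = 0) :
    (B i).submodule = Submodule.span ℝ {c 1 • a (i - 1) + c 3 • a (i + 1)} := by
  obtain ⟨h1, h2, h3⟩ := h i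
  have hv0 : c 1 • a (i - 1) + c 3 • a (i + 1) ≠ 0 := by
    intro h0
    apply hc
    unfold line at h1
    rw [ha, ha] at h1
    unfold plane at h2
    rw [ha, ha, ha] at h2
    obtain ⟨e1, e3⟩ := li2 h1 h0
    have h4 : c 0 • a (i - 2) + c 2 • a i + c 4 • a (i + 2) = 0 := by
      rw [e1, e3] at hr
      simpa using hr
    obtain ⟨e0, e2, e4⟩ := li3 h2 h4
    funext j
    match j with
    | 0 => exact e0
    | 1 => exact e1
    | 2 => exact e2
    | 3 => exact e3
    | 4 => exact e4
  have hmem : ∀ j (s : ℝ), s • a j ∈ (A j).submodule := by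
    intro j s
    rw [ha]
    exact Submodule.smul_mem _ _ (Submodule.mem_span_singleton_self _)
  have hv : c 1 • a (i - 1) + c 3 • a (i + 1) ∈ (B i).submodule := by
    rw [← h3]
    constructor
    · exact Submodule.add_mem_sup (hmem _ _) (hmem _ _)
    · have e : c 1 • a (i - 1) + c 3 • a (i + 1)
          = (-c 0) • a (i - 2) + (-c 2) • a i + (-c 4) • a (i + 2) := by
        rw [← sub_eq_zero, ← hr]
        module
      rw [e]
      exact Submodule.add_mem_sup (Submodule.add_mem_sup (hmem _ _) (hmem _ _)) (hmem _ _)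
  symm
  apply Submodule.eq_of_le_of_finrank_eq
  · rw [Submodule.span_le]
    exact Set.singleton_subset_iff.2 hv
  · rw [finrank_span_singleton hv0, Projectivization.finrank_submodule]

theorem even_of_par {n : ℕ} [NeZero n] {i : ZMod (2 * n)} (h : par n i = 0) : Even i := by
  have e := ZMod.natCast_zmod_val i
  rw [← e, map_natCast, ZMod.natCast_eq_zero_iff_even] at h
  rw [← e]
  exact h.natCast

theorem odd_of_par {n : ℕ} [NeZero n] {i : ZMod (2 * n)} (h : par n i ≠ 0) : Odd i := by
  have e := ZMod.natCast_zmod_val i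
  rw [← e, map_natCast, Ne, ZMod.natCast_eq_zero_iff_even, Nat.not_even_iff_odd] at h
  rw [← e]
  exact h.natCast

theorem par_two (n : ℕ) : par n 2 = 0 := by
  have : (2 : ZMod (2 * n)) = ((2 : ℕ) : ZMod (2 * n)) := by norm_num
  rw [this, map_natCast]
  decide

theorem par_of_even {n : ℕ} {i : ZMod (2 * n)} (h : Even i) : par n i = 0 := by
  obtain ⟨k, rfl⟩ := h
  rw [map_add]
  exact CharTwo.add_self_eq_zero _

theorem par_of_odd {n : ℕ} {i : ZMod (2 * n)} (h : Odd i) : par n i = 1 := by
  obtain ⟨k, rfl⟩ := h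
  rw [map_add, map_mul, par_two, zero_mul, zero_add, map_one]

theorem main {n : ℕ} (hn : 4 ≤ n) (A : ℕ → ZMod (2 * n) → RP3)
    (hF : ∀ k < n - 3, IsImage (A k) (A (k + 1))) {P Q : RP3} (hPQ : Alternate (A 0) P Q)
    (r : ZMod 2) : InOnePlane {X | ∃ i, par n i = r ∧ X = A (n - 3) i} := by
  classical
  have : NeZero n := ⟨by omega⟩
  obtain ⟨L, hL0, hLr, hdep⟩ := main_vec (n := n) (m := n - 3) (by omega) r
    (fun i => (A 0 i).rep) (fun i => if par n i = 0 then P.rep else Q.rep)
    (fun i => by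
      split_ifs
      · exact P.rep_nonzero
      · exact Q.rep_nonzero)
    (fun i => by
      rw [map_add, par_two, add_zero])
    (fun i => by
      have key : ∀ X : RP3, X.submodule ≤ face (A 0) i → ∃ α β γ : ℝ,
          α • (A 0 (i - 1)).rep + β • (A 0 i).rep + γ • (A 0 (i + 1)).rep = X.rep := by
        intro X hX
        have h1 : X.rep ∈ face (A 0) i := hX (by
          rw [Projectivization.submodule_eq]; exact Submodule.mem_span_singleton_self _)
        unfold face at h1
        rw [Projectivization.submodule_eq, Projectivization.submodule_eq,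
          Projectivization.submodule_eq] at h1
        obtain ⟨y, hy, z, hz, e⟩ := Submodule.mem_sup.1 h1
        obtain ⟨y1, hy1, y2, hy2, e'⟩ := Submodule.mem_sup.1 hy
        obtain ⟨α, rfl⟩ := Submodule.mem_span_singleton.1 hy1
        obtain ⟨β, rfl⟩ := Submodule.mem_span_singleton.1 hy2
        obtain ⟨γ, rfl⟩ := Submodule.mem_span_singleton.1 hz
        exact ⟨α, β, γ, by rw [e', e]⟩
      by_cases hi : par n i = 0
      · simp only [if_pos hi]
        exact key P (hPQ.1 i (even_of_par hi))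
      · simp only [if_neg hi]
        exact key Q (hPQ.2 i (odd_of_par hi)))
  have hspan : ∀ k ≤ n - 3, ∀ i, (A k i).submodule
      = Submodule.span ℝ {vec L (fun i => (A 0 i).rep) k i} := by
    intro k
    induction k with
    | zero =>
      intro _ i
      exact Projectivization.submodule_eq _
    | succ k ih =>
      intro hk i
      exact step (hF k (by omega)) (ih (by omega)) i (hL0 k i) (hLr k i)
  set v := vec L (fun i => (A 0 i).rep) (n - 3) with hv
  have hlt : Submodule.span ℝ {x | ∃ i, par n i = r ∧ x = v i} < ⊤ := by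
    rw [lt_top_iff_ne_top]
    intro htop
    obtain ⟨b, hbt, hbs, hli⟩ := exists_linearIndependent ℝ {x | ∃ i, par n i = r ∧ x = v i}
    rw [htop] at hbs
    let bb : Basis b ℝ (Fin 4 → ℝ) := Basis.mk hli (by rw [Subtype.range_coe]; exact hbs.ge)
    let e : Fin 4 ≃ b := (Pi.basisFun ℝ (Fin 4)).indexEquiv bb
    choose ρ hρ1 hρ2 using fun j : Fin 4 => hbt (e j).2
    apply hdep ρ hρ1
    have : (fun j => v (ρ j)) = (fun x : b => (x : Fin 4 → ℝ)) ∘ e := by
      funext j
      exact (hρ2 j).symm
    rw [this]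
    exact hli.comp e e.injective
  obtain ⟨f, hf, hle⟩ := Submodule.exists_le_ker_of_lt_top _ hlt
  refine ⟨LinearMap.ker f, ?_, ?_⟩
  · have h1 := Module.Dual.finrank_ker_add_one_of_ne_zero (f := f) hf
    rw [Module.finrank_fintype_fun_eq_card, Fintype.card_fin] at h1
    omega
  · rintro X ⟨i, hi, rfl⟩
    rw [hspan (n - 3) le_rfl i, Submodule.span_le, Set.singleton_subset_iff]
    exact hle (Submodule.subset_span ⟨i, hi, rfl⟩)

/-- **The Devron property of the three-dimensional pentagram map.**  Let `n ≥ 4`, let `A 0` be a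
`2n`-periodic polygon in `ℝP³` for which `F(A 0) = A 1`, ..., `F^(n-3)(A 0) = A (n - 3)` are
defined, and suppose that the faces of `A 0` pass alternately through `P` and `Q`.  Then the
odd-indexed vertices of `F^(n-3)(A 0)` lie in one plane, and so do the even-indexed ones. -/
theorem result (n : ℕ) (hn : 4 ≤ n) (A : ℕ → ZMod (2 * n) → RP3)
    (hF : ∀ k < n - 3, IsImage (A k) (A (k + 1))) (P Q : RP3) (hPQ : Alternate (A 0) P Q) :
    InOnePlane {X | ∃ i, Odd i ∧ X = A (n - 3) i} ∧
      InOnePlane {X | ∃ i, Even i ∧ X = A (n - 3) i} := by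
  constructor
  · obtain ⟨H, h1, h2⟩ := main hn A hF hPQ 1
    exact ⟨H, h1, fun X ⟨i, hi, e⟩ => h2 X ⟨i, par_of_odd hi, e⟩⟩
  · obtain ⟨H, h1, h2⟩ := main hn A hF hPQ 0
    exact ⟨H, h1, fun X ⟨i, hi, e⟩ => h2 X ⟨i, par_of_even hi, e⟩⟩

end Pool.Agent.Results.MP_d88dfe_an.Devron3D
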